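import Pool.Agent.Lib_helper76.FAM.Tate

set_option autoImplicit false

/-!
# The Tate normal forms with respect to the multiples of a point: the special curves
-/

namespace Pool.Agent.UEG

open WeierstrassCurve.Affine

variable {k : Type*} [Field k] {W W' W'' : WeierstrassCurve.Affine k} {u r s t u' r' s' t' : k}

/-- composition of changes of variables -/
lemma Chg.trans (h : Chg W W' u r s t) (h' : Chg W' W'' u' r' s' t') :
    Chg W W'' (u * u') (u ^ 2 * r' + r) (u * s' + s) (u ^ 3 * t' + u ^ 2 * s * r' + t) where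
  hu := mul_ne_zero h.hu h'.hu
  h1 := by linear_combination h.h1 + u * h'.h1
  h2 := by linear_combination h.h2 - s' * u * h.h1 + u ^ 2 * h'.h2
  h3 := by linear_combination h.h3 + r' * u ^ 2 * h.h1 + u ^ 3 * h'.h3
  h4 := by
    linear_combination h.h4 - s' * u * h.h3 + 2 * r' * u ^ 2 * h.h2 -
      (u ^ 3 * t' + r' * s' * u ^ 3) * h.h1 + u ^ 4 * h'.h4
  h6 := by
    linear_combination h.h6 + r' * u ^ 2 * h.h4 + r' ^ 2 * u ^ 4 * h.h2 -
      t' * u ^ 3 * h.h3 - r' * t' * u ^ 5 * h.h1 + u ^ 6 * h'.h6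

end Pool.Agent.UEG

namespace Pool.Agent.FK4

open Pool.Agent.MK4 WeierstrassCurve.Affine
open Pool.Agent.TN (Wt)
open Pool.Agent.UEG (P0 Chg nx ny)

variable {k : Type*} [Field k] [DecidableEq k] {W : WeierstrassCurve.Affine k} {F : Type*}
  [Field F] [Algebra k F] {X Y : F}

/-- the data attached to a change of variables to a Tate normal form -/
theorem tateS_of (hg : Generic W X Y) {p₁ p₂ b c u s : k} (hP : W.Nonsingular p₁ p₂) (hb : b ≠ 0)
    (hC : Chg W (Wt b c) u p₁ s p₂) :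
    ∃ (x y : F), Tate (Point.some p₁ p₂ hP) X Y b c x y ∧ Generic (Wt b c) x y ∧
      SameS (AddSubgroup.zmultiples (Point.some p₁ p₂ hP)) X Y
        (AddSubgroup.zmultiples (P0 c hb)) x y ∧
      (IntermediateField.adjoin k {X, Y} = ⊤ → IntermediateField.adjoin k {x, y} = ⊤) := by
  have hH := UEG.comap_P0 hb hC hP
  have hU : algebraMap k F u ≠ 0 := (_root_.map_ne_zero _).mpr hC.hu
  have eX := UEG.X_eq (F := F) (r := p₁) hC.hu X
  have eY := UEG.Y_eq (F := F) (r := p₁) (s := s) (t := p₂) hC.hu X Y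
  have hG := hC.gen hg.toU
  refine ⟨UEG.nx F u p₁ X, UEG.ny F u p₁ s p₂ X Y, ?_, toGeneric hG, ⟨⟨?_, ?_⟩, ?_⟩, ?_⟩
  · refine ⟨u, p₁, s, p₂, hP, rfl, hC.hu, hb, ?_, ?_, ?_⟩
    · rw [map_pow]; exact eX
    · rw [map_mul, map_pow, map_pow]; exact eY
    · exact (UE4.of_UEG hG).eq
  · intro f
    rw [supp_iff, supp_iff, hC.IsUn_iff]
    rw [hH]
  · intro f
    exact (lin_chg hC.hu).symm
  · intro f
    have := lineS_chg (X := X) (Y := Y) hC (AddSubgroup.zmultiples (Point.some p₁ p₂ hP)) f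
    rw [hH] at this
    exact this
  · intro htop
    rw [eq_top_iff, ← htop, IntermediateField.adjoin_le_iff]
    set L := IntermediateField.adjoin k {UEG.nx F u p₁ X, UEG.ny F u p₁ s p₂ X Y} with hL
    have hx : UEG.nx F u p₁ X ∈ L := IntermediateField.subset_adjoin k _ (Set.mem_insert _ _)
    have hy : UEG.ny F u p₁ s p₂ X Y ∈ L :=
      IntermediateField.subset_adjoin k _ (Set.mem_insert_of_mem _ (Set.mem_singleton _))
    have hc : ∀ c : k, algebraMap k F c ∈ L := fun c => L.algebraMap_mem c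
    have hX : X ∈ L := by
      rw [eX]
      exact add_mem (mul_mem (pow_mem (hc _) 2) hx) (hc _)
    have hY : Y ∈ L := by
      rw [eY]
      exact add_mem (add_mem (mul_mem (pow_mem (hc _) 3) hy)
        (mul_mem (mul_mem (pow_mem (hc _) 2) (hc _)) hx)) (hc _)
    rintro z (rfl | rfl)
    · exact hX
    · exact hY

/-- a multiple of a point -/
theorem tateS_mul (hg : Generic W X Y) {p₁ p₂ b c u s : k} (hP : W.Nonsingular p₁ p₂) (hb : b ≠ 0)
    (hC : Chg W (Wt b c) u p₁ s p₂) {b' c' u' r' s' t' : k} (hb' : b' ≠ 0)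
    (hC' : Chg (Wt b c) (Wt b' c') u' r' s' t') {m : ℕ} {h' : (Wt b c).Nonsingular r' t'}
    (hm : m • P0 c hb = .some r' t' h') :
    ∃ (x y : F), Tate (m • Point.some p₁ p₂ hP) X Y b' c' x y ∧ Generic (Wt b' c') x y ∧
      addOrderOf (P0 c' hb') = addOrderOf (m • Point.some p₁ p₂ hP) ∧
      SameS (AddSubgroup.zmultiples (m • Point.some p₁ p₂ hP)) X Y
        (AddSubgroup.zmultiples (P0 c' hb')) x y ∧
      (IntermediateField.adjoin k {X, Y} = ⊤ → IntermediateField.adjoin k {x, y} = ⊤) := by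
  have e1 : m • Point.some p₁ p₂ hP = hC.hom (.some r' t' h') := by
    rw [← hm, map_nsmul, UEG.hom_P0 hb hC hP]
  have hC2 := hC.trans hC'
  have h2 : W.Nonsingular (u ^ 2 * r' + p₁) (u ^ 3 * t' + u ^ 2 * s * r' + p₂) :=
    (hC.ns r' t').mpr h'
  have e2 : m • Point.some p₁ p₂ hP = .some _ _ h2 := by
    rw [e1, hC.hom_some]
  rw [e2]
  obtain ⟨x, y, i1, i2, i3, i4⟩ := tateS_of hg h2 hb' hC2
  exact ⟨x, y, i1, i2, UEG.order_P0 hb' hC2 h2, i3, i4⟩

lemma zm_eq {G : Type*} [AddCommGroup G] {P : G} {N m m' : ℕ} (hN : N • P = 0)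
    (hm : m * m' % N = 1 % N) : AddSubgroup.zmultiples (m • P) = AddSubgroup.zmultiples P := by
  have h1 : m' • m • P = P := by
    rw [smul_smul, mul_comm m' m]
    conv_lhs => rw [← Nat.div_add_mod (m * m') N, hm]
    rw [add_smul, mul_comm N, mul_smul, hN, smul_zero, zero_add]
    conv_rhs => rw [← one_smul ℕ P]
    conv_rhs => rw [← Nat.div_add_mod 1 N, add_smul, mul_comm N, mul_smul, hN, smul_zero, zero_add]
  apply le_antisymm
  · exact AddSubgroup.zmultiples_le_of_mem (AddSubgroup.nsmul_mem_zmultiples _ _)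
  · refine AddSubgroup.zmultiples_le_of_mem ?_
    have h2 := AddSubgroup.nsmul_mem_zmultiples (m • P) m'
    rwa [h1] at h2

lemma order_eq {G : Type*} [AddCommGroup G] {P Q : G}
    (h : AddSubgroup.zmultiples Q = AddSubgroup.zmultiples P) : addOrderOf Q = addOrderOf P := by
  rw [← Nat.card_zmultiples, ← Nat.card_zmultiples, h]

section

variable [CharZero k]

omit [DecidableEq k] in
lemma bb7 : K7.bb (2 : k) ≠ 0 := by unfold K7.bb; norm_num

omit [DecidableEq k] in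
lemma bb8 : UE8.bb (2 : k) ≠ 0 := by unfold UE8.bb; norm_num

omit [DecidableEq k] in
lemma bb8' : UE8.bb (1 / 3 : k) ≠ 0 := by unfold UE8.bb; norm_num

/-- the normal form with `t = 2` -/
def To7 (P : W.Point) (X Y : F) : Prop := ∃ x' y' : F,
  Generic (Wt (K7.bb (2 : k)) (K7.cc 2)) x' y' ∧ addOrderOf (P0 (K7.cc (2 : k)) bb7) = 7 ∧
  SameS (AddSubgroup.zmultiples P) X Y (AddSubgroup.zmultiples (P0 (K7.cc (2 : k)) bb7)) x' y' ∧
  (IntermediateField.adjoin k {X, Y} = ⊤ → IntermediateField.adjoin k {x', y'} = ⊤)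

/-- points of order seven -/
theorem tate7s (hg : Generic W X Y) (P : W.Point) (h : addOrderOf P = 7) :
    ∃ (t : k) (x y : F) (hb : K7.bb t ≠ 0), t ≠ 0 ∧ t ≠ 1 ∧
      Tate P X Y (t ^ 3 - t ^ 2) (t ^ 2 - t) x y ∧ Generic (Wt (K7.bb t) (K7.cc t)) x y ∧
      addOrderOf (P0 (K7.cc t) hb) = 7 ∧
      SameS (AddSubgroup.zmultiples P) X Y (AddSubgroup.zmultiples (P0 (K7.cc t) hb)) x y ∧
      (IntermediateField.adjoin k {X, Y} = ⊤ → IntermediateField.adjoin k {x, y} = ⊤) ∧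
      (t = 2 ∨ t = -1 ∨ 2 * t = 1 → To7 P X Y) := by
  rcases P with _ | ⟨p₁, p₂, hP⟩
  · exfalso
    have : addOrderOf (0 : W.Point) = 7 := h
    rw [addOrderOf_zero] at this
    omega
  obtain ⟨b, c, u, s, hb, hC, hO, hH⟩ := UEG.tate_of_order hP (by norm_num : 4 ≤ 7) h
  have hO' : (7 : ℕ) • P0 c hb = 0 := by rw [← hO]; exact addOrderOf_nsmul_eq_zero _
  obtain ⟨t, ht, ht1, ec, eb⟩ := UEG.bc_of_seven hb hO'
  have ec' : c = K7.cc t := by rw [ec]; rfl
  have eb' : b = K7.bb t := by rw [eb]; rfl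
  have e1 : K7.bb t = t ^ 3 - t ^ 2 := by unfold K7.bb; ring
  have e2 : K7.cc t = t ^ 2 - t := by unfold K7.cc; ring
  clear ec eb
  subst ec' eb'
  obtain ⟨x, y, i1, i2, i3, i4⟩ := tateS_of hg hP hb hC
  refine ⟨t, x, y, hb, ht, ht1, ?_, i2, hO, i3, i4, ?_⟩
  · rw [← e1, ← e2]; exact i1
  have hP7 : (7 : ℕ) • Point.some p₁ p₂ hP = 0 := by rw [← h]; exact addOrderOf_nsmul_eq_zero _
  rintro (rfl | rfl | h2)
  · exact ⟨x, y, i2, hO, i3, i4⟩
  · -- `t = -1`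
    obtain ⟨h3, e3⟩ := UEG.two_P0 (c := K7.cc (-1 : k)) hb
    have hC' : Chg (Wt (K7.bb (-1 : k)) (K7.cc (-1))) (Wt (K7.bb 2) (K7.cc 2)) 1
        (K7.bb (-1)) 0 (K7.bb (-1) * K7.cc (-1)) := by
      constructor <;> (try simp only [Wt, K7.bb, K7.cc]) <;> norm_num
    obtain ⟨x', y', j1, j2, j3, j4, j5⟩ := tateS_mul hg hP hb hC bb7 hC' e3
    have hz := zm_eq hP7 (m := 2) (m' := 4) (by norm_num)
    rw [hz] at j4
    exact ⟨x', y', j2, j3.trans ((order_eq hz).trans h), j4, j5⟩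
  · -- `t = 1 / 2`
    have h2' : t = 1 / 2 := by linear_combination h2 / 2
    subst h2'
    obtain ⟨h3, e3⟩ := UEG.three_P0 (c := K7.cc (1 / 2 : k)) hb
    have hC' : Chg (Wt (K7.bb (1 / 2 : k)) (K7.cc (1 / 2))) (Wt (K7.bb 2) (K7.cc 2)) (-1 / 4)
        (K7.cc (1 / 2)) (-1 / 2) (K7.bb (1 / 2) - K7.cc (1 / 2)) := by
      constructor <;> (try simp only [Wt, K7.bb, K7.cc]) <;> norm_num
    obtain ⟨x', y', j1, j2, j3, j4, j5⟩ := tateS_mul hg hP hb hC bb7 hC' e3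
    have hz := zm_eq hP7 (m := 3) (m' := 5) (by norm_num)
    rw [hz] at j4
    exact ⟨x', y', j2, j3.trans ((order_eq hz).trans h), j4, j5⟩

/-- the normal form with `d = 2` -/
def To8 (P : W.Point) (X Y : F) : Prop := ∃ x' y' : F,
  Generic (Wt (UE8.bb (2 : k)) (UE8.cc 2)) x' y' ∧ addOrderOf (P0 (UE8.cc (2 : k)) bb8) = 8 ∧
  SameS (AddSubgroup.zmultiples P) X Y (AddSubgroup.zmultiples (P0 (UE8.cc (2 : k)) bb8)) x' y' ∧
  (IntermediateField.adjoin k {X, Y} = ⊤ → IntermediateField.adjoin k {x', y'} = ⊤)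

/-- the normal form with `d = 1/3` -/
def To8' (P : W.Point) (X Y : F) : Prop := ∃ x' y' : F,
  Generic (Wt (UE8.bb (1 / 3 : k)) (UE8.cc (1 / 3))) x' y' ∧
  addOrderOf (P0 (UE8.cc (1 / 3 : k)) bb8') = 8 ∧
  SameS (AddSubgroup.zmultiples P) X Y (AddSubgroup.zmultiples (P0 (UE8.cc (1 / 3 : k)) bb8'))
    x' y' ∧
  (IntermediateField.adjoin k {X, Y} = ⊤ → IntermediateField.adjoin k {x', y'} = ⊤)

/-- points of order eight -/
theorem tate8s (hg : Generic W X Y) (P : W.Point) (h : addOrderOf P = 8) :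
    ∃ (t : k) (x y : F) (hb : UE8.bb t ≠ 0), t ≠ 0 ∧ t - 1 ≠ 0 ∧ 2 * t - 1 ≠ 0 ∧
      Tate P X Y ((2 * t - 1) * (t - 1)) ((2 * t - 1) * (t - 1) / t) x y ∧
      Generic (Wt (UE8.bb t) (UE8.cc t)) x y ∧
      addOrderOf (P0 (UE8.cc t) hb) = 8 ∧
      SameS (AddSubgroup.zmultiples P) X Y (AddSubgroup.zmultiples (P0 (UE8.cc t) hb)) x y ∧
      (IntermediateField.adjoin k {X, Y} = ⊤ → IntermediateField.adjoin k {x, y} = ⊤) ∧
      (t = 2 ∨ t = -1 → To8 P X Y) ∧ (3 * t = 1 ∨ 3 * t = 2 → To8' P X Y) := by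
  rcases P with _ | ⟨p₁, p₂, hP⟩
  · exfalso
    have : addOrderOf (0 : W.Point) = 8 := h
    rw [addOrderOf_zero] at this
    omega
  obtain ⟨b, c, u, s, hb, hC, hO, hH⟩ := UEG.tate_of_order hP (by norm_num : 4 ≤ 8) h
  obtain ⟨t, ht, eb, ec, hc⟩ := UEG.bc_of_eight hb hO
  have ec' : c = UE8.cc t := by
    unfold UE8.cc
    rw [eq_div_iff ht, ← ec, eb]
  have eb' : b = UE8.bb t := by rw [eb]; rfl
  have hb1 : (2 * t - 1) * (t - 1) ≠ 0 := by rw [← eb]; exact hb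
  clear ec eb
  subst ec' eb'
  obtain ⟨x, y, i1, i2, i3, i4⟩ := tateS_of hg hP hb hC
  have hP8 : (8 : ℕ) • Point.some p₁ p₂ hP = 0 := by rw [← h]; exact addOrderOf_nsmul_eq_zero _
  refine ⟨t, x, y, hb, ht, right_ne_zero_of_mul hb1, left_ne_zero_of_mul hb1, i1, i2, hO, i3, i4,
    ?_, ?_⟩
  · rintro (rfl | rfl)
    · exact ⟨x, y, i2, hO, i3, i4⟩
    · obtain ⟨h3, e3⟩ := UEG.three_P0 (c := UE8.cc (-1 : k)) hb
      have hC' : Chg (Wt (UE8.bb (-1 : k)) (UE8.cc (-1))) (Wt (UE8.bb 2) (UE8.cc 2)) 2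
          (UE8.cc (-1)) (-4) (UE8.bb (-1) - UE8.cc (-1)) := by
        constructor <;> (try simp only [Wt, UE8.bb, UE8.cc]) <;> norm_num
      obtain ⟨x', y', j1, j2, j3, j4, j5⟩ := tateS_mul hg hP hb hC bb8 hC' e3
      have hz := zm_eq hP8 (m := 3) (m' := 3) (by norm_num)
      rw [hz] at j4
      exact ⟨x', y', j2, j3.trans ((order_eq hz).trans h), j4, j5⟩
  · rintro (h2 | h2)
    · have h2' : t = 1 / 3 := by linear_combination h2 / 3
      subst h2'
      exact ⟨x, y, i2, hO, i3, i4⟩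
    · have h2' : t = 2 / 3 := by linear_combination h2 / 3
      subst h2'
      obtain ⟨h3, e3⟩ := UEG.three_P0 (c := UE8.cc (2 / 3 : k)) hb
      have hC' : Chg (Wt (UE8.bb (2 / 3 : k)) (UE8.cc (2 / 3))) (Wt (UE8.bb (1 / 3))
          (UE8.cc (1 / 3))) (-1 / 2) (UE8.cc (2 / 3)) (-2 / 3) (UE8.bb (2 / 3) - UE8.cc (2 / 3)) := by
        constructor <;> (try simp only [Wt, UE8.bb, UE8.cc]) <;> norm_num
      obtain ⟨x', y', j1, j2, j3, j4, j5⟩ := tateS_mul hg hP hb hC bb8' hC' e3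
      have hz := zm_eq hP8 (m := 3) (m' := 3) (by norm_num)
      rw [hz] at j4
      exact ⟨x', y', j2, j3.trans ((order_eq hz).trans h), j4, j5⟩

end

end Pool.Agent.FK4
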