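import Pool.Agent.Lib_helper24.FAM.Gen
import Pool.Agent.Lib_helper24.FAM.DefsT

/-!
# Quotients of lines through a point of the curve
-/

set_option autoImplicit false
set_option linter.unusedSectionVars false

namespace Pool.Agent.FK4

open WeierstrassCurve.Affine
open TN (Orb)
open UEG (Chg nx ny P0)

section lemmas

variable {k : Type*} [Field k] [DecidableEq k] {W : WeierstrassCurve.Affine k} {F : Type*}
  [Field F] [Algebra k F] {H : AddSubgroup W.Point} {X Y : F} {S : W.Point}

omit [DecidableEq k] in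
lemma Thr.add {f g : F} (hf : Thr X Y S f) (hg : Thr X Y S g) : Thr X Y S (f + g) := by
  rcases S with _ | ⟨p, q, hS⟩
  · obtain ⟨a, b, rfl⟩ := hf
    obtain ⟨a', b', rfl⟩ := hg
    exact ⟨a + a', b + b', by simp only [map_add]; ring⟩
  · obtain ⟨a, b, rfl⟩ := hf
    obtain ⟨a', b', rfl⟩ := hg
    exact ⟨a + a', b + b', by simp only [map_add]; ring⟩

omit [DecidableEq k] in
lemma Thr.smul {f : F} (r : k) (hf : Thr X Y S f) : Thr X Y S (algebraMap k F r * f) := by
  rcases S with _ | ⟨p, q, hS⟩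
  · obtain ⟨a, b, rfl⟩ := hf
    exact ⟨r * a, r * b, by simp only [map_mul]; ring⟩
  · obtain ⟨a, b, rfl⟩ := hf
    exact ⟨r * a, r * b, by simp only [map_mul]; ring⟩

omit [DecidableEq k] in
lemma Thr.neg {f : F} (hf : Thr X Y S f) : Thr X Y S (-f) := by
  have := hf.smul (-1)
  rwa [map_neg, map_one, neg_one_mul] at this

omit [DecidableEq k] in
lemma Thr.sub {f g : F} (hf : Thr X Y S f) (hg : Thr X Y S g) : Thr X Y S (f - g) := by
  rw [sub_eq_add_neg]; exact hf.add hg.neg

omit [DecidableEq k] in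
/-- the line at infinity -/
lemma thr_const (c : k) : Thr X Y (0 : W.Point) (algebraMap k F c) := ⟨c, 0, by simp⟩

omit [DecidableEq k] in
lemma thr_one : Thr X Y (0 : W.Point) (1 : F) := by
  rw [← map_one (algebraMap k F)]; exact thr_const 1

omit [DecidableEq k] in
lemma thr_X : Thr X Y (0 : W.Point) X := ⟨0, 1, by simp⟩

omit [DecidableEq k] in
lemma thr_vert0 (a : k) : Thr X Y (0 : W.Point) (X - algebraMap k F a) := thr_X.sub (thr_const a)

omit [DecidableEq k] in
lemma thr_vert {a b : k} (h : W.Nonsingular a b) :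
    Thr X Y (.some a b h : W.Point) (X - algebraMap k F a) := ⟨1, 0, by simp⟩

omit [DecidableEq k] in
lemma thr_line {a b s e : k} (h : W.Nonsingular a b) (he : b = s * a + e) :
    Thr X Y (.some a b h : W.Point) (Y - (algebraMap k F s * X + algebraMap k F e)) := by
  refine ⟨-s, 1, ?_⟩
  rw [he]
  simp only [map_neg, map_one, map_add, map_mul]
  ring

omit [DecidableEq k] in
lemma Thr.lin {f : F} (hf : Thr X Y S f) : Lin k X Y f := by
  rcases S with _ | ⟨p, q, hS⟩
  · obtain ⟨a, b, rfl⟩ := hf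
    exact (lin_const a).add (lin_X.smul b)
  · obtain ⟨a, b, rfl⟩ := hf
    exact ((lin_X.sub (lin_const p)).smul a).add ((lin_Y.sub (lin_const q)).smul b)

lemma LineS.lineQ {f : F} (h : LineS H X Y f) : LineQ H X Y f := by
  obtain ⟨S, l, m, h1, h2, h3, h4, h5, h6⟩ := h
  exact ⟨l, m, h1.lin, h2.lin, h3, h4, h5, h6⟩

/-- the S₃-orbit -/
lemma LineS.orb {u f : F} (hu : LineS H X Y u) (h : Orb u f) : LineS H X Y f := by
  obtain ⟨S, l, m, h1, h2, h3, h4, h5, rfl⟩ := hu
  have hl := h3.1
  have hm := h4.1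
  have hd := h5.1
  have hd' : l - m ≠ 0 := by
    intro h'
    apply hd
    rw [← neg_sub, h', neg_zero]
  rcases h with rfl | rfl | rfl | rfl | rfl | rfl
  · exact ⟨S, l, m, h1, h2, h3, h4, h5, rfl⟩
  · refine ⟨S, m - l, m, h2.sub h1, h2, h5, h4, ?_, ?_⟩
    · rw [sub_sub_cancel]; exact h3
    · field_simp
  · refine ⟨S, m, l, h2, h1, h4, h3, h5.sub_comm, ?_⟩
    rw [one_div, inv_div]
  · refine ⟨S, l - m, l, h1.sub h2, h1, h5.sub_comm, h3, ?_, ?_⟩
    · rw [sub_sub_cancel]; exact h4
    · field_simp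
  · refine ⟨S, m, m - l, h2, h2.sub h1, h4, h5, ?_, ?_⟩
    · rw [sub_right_comm, sub_self, zero_sub]; exact h3.neg
    · have : 1 - l / m = (m - l) / m := by field_simp
      rw [this, one_div, inv_div]
  · refine ⟨S, l, l - m, h1, h1.sub h2, h3, h5.sub_comm, ?_, ?_⟩
    · rw [sub_right_comm, sub_self, zero_sub]; exact h4.neg
    · have : l / m - 1 = (l - m) / m := by field_simp
      rw [this, div_div_div_cancel_right₀ hm]

lemma LineS.supp {f : F} (h : LineS H X Y f) : Supp H X Y f ∧ Supp H X Y (1 - f) := h.lineQ.supp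

/-- the cross ratios of a function which is the quotient of two lines -/
lemma LineS.of_two {Z L T : F} (hL : Thr X Y S L) (hT : Thr X Y S T) (sT : Supp H X Y T)
    (hZ : Z = L / T) {a : k} (ha : a ≠ 0) (s0 : Supp H X Y Z)
    (sa : Supp H X Y (Z - algebraMap k F a)) : LineS H X Y (Z / algebraMap k F a) := by
  have hT0 := sT.1
  have hA : algebraMap k F a ≠ 0 := (_root_.map_ne_zero _).mpr ha
  have eL : L = Z * T := by rw [hZ]; field_simp
  refine ⟨S, L, algebraMap k F a * T, hL, hT.smul a, ?_, (supp_const ha).mul sT, ?_, ?_⟩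
  · rw [eL]; exact s0.mul sT
  · have : algebraMap k F a * T - L = -((Z - algebraMap k F a) * T) := by rw [eL]; ring
    rw [this]
    exact (sa.mul sT).neg
  · rw [eL]; field_simp

lemma LineS.of_three {Z L T : F} (hL : Thr X Y S L) (hT : Thr X Y S T) (sT : Supp H X Y T)
    (hZ : Z = L / T) {a b c : k} (hab : a ≠ b) (hbc : b ≠ c) (hac : a ≠ c)
    (sa : Supp H X Y (Z - algebraMap k F a)) (sb : Supp H X Y (Z - algebraMap k F b))
    (sc : Supp H X Y (Z - algebraMap k F c)) :
    LineS H X Y ((Z - algebraMap k F a) * algebraMap k F (b - c) /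
      ((Z - algebraMap k F c) * algebraMap k F (b - a))) := by
  have hT0 := sT.1
  have eL : L = Z * T := by rw [hZ]; field_simp
  have h1 : b - a ≠ 0 := sub_ne_zero.mpr (Ne.symm hab)
  have h2 : b - c ≠ 0 := sub_ne_zero.mpr hbc
  have h3 : c - a ≠ 0 := sub_ne_zero.mpr (Ne.symm hac)
  refine ⟨S, algebraMap k F (b - c) * (L - algebraMap k F a * T),
    algebraMap k F (b - a) * (L - algebraMap k F c * T), (hL.sub (hT.smul a)).smul _,
    (hL.sub (hT.smul c)).smul _, ?_, ?_, ?_, ?_⟩
  · refine (supp_const h2).mul ?_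
    have : L - algebraMap k F a * T = (Z - algebraMap k F a) * T := by rw [eL]; ring
    rw [this]
    exact sa.mul sT
  · refine (supp_const h1).mul ?_
    have : L - algebraMap k F c * T = (Z - algebraMap k F c) * T := by rw [eL]; ring
    rw [this]
    exact sc.mul sT
  · have : algebraMap k F (b - a) * (L - algebraMap k F c * T) -
        algebraMap k F (b - c) * (L - algebraMap k F a * T) =
        algebraMap k F (c - a) * ((Z - algebraMap k F b) * T) := by
      rw [eL]; simp only [map_sub]; ring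
    rw [this]
    exact (supp_const h3).mul (sb.mul sT)
  · rw [eL]
    have g1 : algebraMap k F (b - a) ≠ 0 := (_root_.map_ne_zero _).mpr h1
    have g3 : Z - algebraMap k F c ≠ 0 := sc.1
    have : Z * T - algebraMap k F c * T = (Z - algebraMap k F c) * T := by ring
    rw [this]
    field_simp

/-- the four cross ratios of a quotient of lines with three values -/
lemma LineS.four_cr {Z L T Lb Lc : F} {b c κb κc : k} (hb : b ≠ 0) (hc : c ≠ 0) (hbc : b ≠ c)
    (hκb : κb ≠ 0) (hκc : κc ≠ 0) (lL : Thr X Y S L) (lT : Thr X Y S T) (sT : Supp H X Y T)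
    (sL : Supp H X Y L) (sb : Supp H X Y Lb) (sc : Supp H X Y Lc) (hZ : Z = L / T)
    (eb : L - algebraMap k F b * T = algebraMap k F κb * Lb)
    (ec : L - algebraMap k F c * T = algebraMap k F κc * Lc) :
    LineS H X Y (Z / algebraMap k F b) ∧ LineS H X Y (Z / algebraMap k F c) ∧
      LineS H X Y ((Z - algebraMap k F b) / (algebraMap k F c - algebraMap k F b)) ∧
      LineS H X Y (Z * (algebraMap k F b - algebraMap k F c) /
        ((Z - algebraMap k F c) * algebraMap k F b)) := by
  have hT0 := sT.1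
  have eL : L = Z * T := by rw [hZ]; field_simp
  have s0 : Supp H X Y Z := by rw [hZ]; exact sL.div sT
  have s1 : Supp H X Y (Z - algebraMap k F b) := by
    have : Z - algebraMap k F b = algebraMap k F κb * Lb / T := by
      rw [← eb, hZ]; field_simp
    rw [this]
    exact ((supp_const hκb).mul sb).div sT
  have s2 : Supp H X Y (Z - algebraMap k F c) := by
    have : Z - algebraMap k F c = algebraMap k F κc * Lc / T := by
      rw [← ec, hZ]; field_simp
    rw [this]
    exact ((supp_const hκc).mul sc).div sT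
  have hcb : algebraMap k F (c - b) ≠ 0 :=
    (_root_.map_ne_zero _).mpr (sub_ne_zero.mpr (Ne.symm hbc))
  refine ⟨LineS.of_two lL lT sT hZ hb s0 s1, LineS.of_two lL lT sT hZ hc s0 s2, ?_, ?_⟩
  · refine ⟨S, L - algebraMap k F b * T, algebraMap k F (c - b) * T, lL.sub (lT.smul b),
      lT.smul _, ?_, (supp_const (sub_ne_zero.mpr (Ne.symm hbc))).mul sT, ?_, ?_⟩
    · rw [eb]; exact (supp_const hκb).mul sb
    · have : algebraMap k F (c - b) * T - (L - algebraMap k F b * T) =
          -(algebraMap k F κc * Lc) := by rw [← ec, map_sub]; ring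
      rw [this]
      exact ((supp_const hκc).mul sc).neg
    · rw [eL, ← map_sub, div_eq_div_iff hcb (mul_ne_zero hcb hT0)]
      ring
  · have := LineS.of_three lL lT sT hZ (a := 0) (b := b) (c := c) (Ne.symm hb) hbc (Ne.symm hc)
      (by rwa [map_zero, sub_zero]) s1 s2
    rwa [map_zero, sub_zero, sub_zero, map_sub] at this

/-- the unit equation from one implication -/
lemma unitEqS_of (h : ∀ f : F, Supp H X Y f → Supp H X Y (1 - f) →
    (∃ c : k, f = algebraMap k F c) ∨ LineS H X Y f) : UnitEqS H X Y := by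
  intro f
  constructor
  · rintro ⟨h1, h2⟩
    rcases h f h1 h2 with ⟨c, rfl⟩ | h3
    · left
      refine ⟨c, ?_, ?_, rfl⟩
      · rintro rfl; exact h1.1 (map_zero _)
      · rintro rfl; exact h2.1 (by rw [map_one, sub_self])
    · exact Or.inr h3
  · rintro (⟨c, h0, h1, rfl⟩ | h3)
    · refine ⟨supp_const h0, ?_⟩
      have : 1 - algebraMap k F c = algebraMap k F (1 - c) := by rw [map_sub, map_one]
      rw [this]
      exact supp_const (sub_ne_zero.mpr (Ne.symm h1))
    · exact h3.supp

end lemmas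

/-! ### change of coordinates -/

section chg

variable {k : Type*} [Field k] [DecidableEq k] {W W' : WeierstrassCurve.Affine k} {F : Type*}
  [Field F] [Algebra k F] {X Y : F} {u r s t : k}

/-- every point comes from the other curve -/
lemma hom_surj (hC : Chg W W' u r s t) (S : W.Point) : ∃ S', hC.hom S' = S := by
  have hu := hC.hu
  rcases S with _ | ⟨p, q, hS⟩
  · exact ⟨0, map_zero _⟩
  · have e1 : u ^ 2 * ((p - r) / u ^ 2) + r = p := by field_simp; ring
    have e2 : u ^ 3 * ((q - s * (p - r) - t) / u ^ 3) + u ^ 2 * s * ((p - r) / u ^ 2) + t = q := by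
      field_simp
      ring
    have h' : W'.Nonsingular ((p - r) / u ^ 2) ((q - s * (p - r) - t) / u ^ 3) := by
      rw [← hC.ns, e1, e2]
      exact hS
    refine ⟨.some _ _ h', ?_⟩
    rw [hC.hom_some]
    simp only [Point.some.injEq]
    exact ⟨e1, e2⟩

/-- lines through a point in other coordinates -/
lemma thr_chg (hC : Chg W W' u r s t) (S : W'.Point) (f : F) :
    Thr X Y (hC.hom S) f ↔ Thr (nx F u r X) (ny F u r s t X Y) S f := by
  have hu := hC.hu
  have hU : algebraMap k F u ≠ 0 := (_root_.map_ne_zero _).mpr hu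
  have eX := UEG.X_eq (F := F) (r := r) hu X
  have eY := UEG.Y_eq (F := F) (r := r) (s := s) (t := t) hu X Y
  obtain ⟨x, hx⟩ : ∃ x, x = nx F u r X := ⟨_, rfl⟩
  obtain ⟨y, hy⟩ : ∃ y, y = ny F u r s t X Y := ⟨_, rfl⟩
  rw [← hx] at eX
  rw [← hx, ← hy] at eY
  rw [← hx, ← hy]
  rcases S with _ | ⟨p, q, hS⟩
  · show Thr X Y (hC.hom 0) f ↔ _
    rw [map_zero]
    constructor
    · rintro ⟨a, b, rfl⟩
      refine ⟨a + b * r, b * u ^ 2, ?_⟩
      simp only [map_add, map_mul, map_pow]
      linear_combination algebraMap k F b * eX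
    · rintro ⟨a, b, rfl⟩
      refine ⟨a - b * (u ^ 2)⁻¹ * r, b * (u ^ 2)⁻¹, ?_⟩
      simp only [map_sub, map_mul, map_pow, map_inv₀]
      have : x = (algebraMap k F u ^ 2)⁻¹ * (X - algebraMap k F r) := by
        rw [eq_inv_mul_iff_mul_eq₀ (pow_ne_zero 2 hU)]
        linear_combination -eX
      rw [this]
      ring
  · rw [hC.hom_some]
    constructor
    · rintro ⟨a, b, rfl⟩
      refine ⟨a * u ^ 2 + b * s * u ^ 2, b * u ^ 3, ?_⟩
      simp only [map_add, map_mul, map_pow]
      linear_combination algebraMap k F a * eX + algebraMap k F b * eY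
    · rintro ⟨a, b, rfl⟩
      refine ⟨a * (u ^ 2)⁻¹ - b * (u ^ 3)⁻¹ * s, b * (u ^ 3)⁻¹, ?_⟩
      simp only [map_sub, map_add, map_mul, map_pow, map_inv₀]
      have e1 : x - algebraMap k F p = (algebraMap k F u ^ 2)⁻¹ *
          (X - (algebraMap k F u ^ 2 * algebraMap k F p + algebraMap k F r)) := by
        rw [eq_inv_mul_iff_mul_eq₀ (pow_ne_zero 2 hU)]
        linear_combination -eX
      have e2 : y - algebraMap k F q = (algebraMap k F u ^ 3)⁻¹ *
          (Y - (algebraMap k F u ^ 3 * algebraMap k F q + algebraMap k F s *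
            algebraMap k F u ^ 2 * algebraMap k F p + algebraMap k F t) -
            algebraMap k F s * (X - (algebraMap k F u ^ 2 * algebraMap k F p +
              algebraMap k F r))) := by
        rw [eq_inv_mul_iff_mul_eq₀ (pow_ne_zero 3 hU)]
        linear_combination -eY + algebraMap k F s * eX
      rw [e1, e2]
      ring

/-- quotients of lines in other coordinates -/
theorem lineS_chg (hC : Chg W W' u r s t) (H : AddSubgroup W.Point) (f : F) :
    LineS H X Y f ↔ LineS (H.comap hC.hom) (nx F u r X) (ny F u r s t X Y) f := by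
  have hs : ∀ f : F, Supp H X Y f ↔ Supp (H.comap hC.hom) (nx F u r X) (ny F u r s t X Y) f := by
    intro f
    rw [supp_iff, supp_iff, hC.IsUn_iff]
  constructor
  · rintro ⟨S, l, m, h1, h2, h3, h4, h5, h6⟩
    obtain ⟨S', rfl⟩ := hom_surj hC S
    exact ⟨S', l, m, (thr_chg hC _ _).mp h1, (thr_chg hC _ _).mp h2, (hs _).mp h3, (hs _).mp h4,
      (hs _).mp h5, h6⟩
  · rintro ⟨S, l, m, h1, h2, h3, h4, h5, h6⟩
    exact ⟨hC.hom S, l, m, (thr_chg hC _ _).mpr h1, (thr_chg hC _ _).mpr h2, (hs _).mpr h3,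
      (hs _).mpr h4, (hs _).mpr h5, h6⟩

theorem unitEqS_chg (hC : Chg W W' u r s t) (H : AddSubgroup W.Point) :
    UnitEqS H X Y ↔ UnitEqS (H.comap hC.hom) (nx F u r X) (ny F u r s t X Y) := by
  have hs : ∀ f : F, Supp H X Y f ↔ Supp (H.comap hC.hom) (nx F u r X) (ny F u r s t X Y) f := by
    intro f
    rw [supp_iff, supp_iff, hC.IsUn_iff]
  unfold UnitEqS
  simp only [hs, lineS_chg hC H]

end chg

end Pool.Agent.FK4
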