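import Pool.Agent.Lib_helper24.FAM.Tr
import Pool.Agent.Lib_helper76.FAM.Thr
import Pool.Agent.Lib_helper76.UEG.BF
import Pool.Agent.Lib_helper76.UE6.U6
import Pool.Agent.Lib_helper76.UE8.U8
import Pool.Agent.Lib_helper72.K7.B

set_option autoImplicit false

/-!
# The Tate normal forms of the points of order six, seven and eight
-/

namespace Pool.Agent.FK4

open Pool.Agent.MK4 WeierstrassCurve.Affine
open Pool.Agent.TN (Wt)
open Pool.Agent.UEG (P0)

variable {k : Type*} [Field k] [DecidableEq k] {W W' : WeierstrassCurve.Affine k} {F : Type*}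
  [Field F] [Algebra k F] {X Y : F}

/-- equality of the functions supported on two groups, and of the quotients of lines -/
structure SameS (H : AddSubgroup W.Point) (X Y : F) (H' : AddSubgroup W'.Point) (x y : F) :
    Prop extends Same H X Y H' x y where
  lineS : ∀ f : F, LineS H X Y f ↔ LineS H' x y f

lemma SameS.unitEqS {H : AddSubgroup W.Point} {H' : AddSubgroup W'.Point} {x y : F}
    (h : SameS H X Y H' x y) : UnitEqS H X Y ↔ UnitEqS H' x y := by
  unfold UnitEqS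
  simp only [h.supp, h.lineS]

/-- **every point of order at least four has a Tate normal form** -/
theorem exists_tateS (hg : Generic W X Y) (P : W.Point) {N : ℕ} (hN : 4 ≤ N)
    (h : addOrderOf P = N) :
    ∃ (b c : k) (x y : F) (hb : b ≠ 0), Tate P X Y b c x y ∧ Generic (Wt b c) x y ∧
      addOrderOf (P0 c hb) = N ∧
      SameS (AddSubgroup.zmultiples P) X Y (AddSubgroup.zmultiples (P0 c hb)) x y ∧
      (IntermediateField.adjoin k {X, Y} = ⊤ → IntermediateField.adjoin k {x, y} = ⊤) := by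
  rcases P with _ | ⟨p₁, p₂, hP⟩
  · exfalso
    have : addOrderOf (0 : W.Point) = N := h
    rw [addOrderOf_zero] at this
    omega
  obtain ⟨b, c, u, s, hb, hC, hO, hH⟩ := UEG.tate_of_order hP hN h
  have hU : algebraMap k F u ≠ 0 := (_root_.map_ne_zero _).mpr hC.hu
  have eX := UEG.X_eq (F := F) (r := p₁) hC.hu X
  have eY := UEG.Y_eq (F := F) (r := p₁) (s := s) (t := p₂) hC.hu X Y
  have hG := hC.gen hg.toU
  refine ⟨b, c, UEG.nx F u p₁ X, UEG.ny F u p₁ s p₂ X Y, hb, ?_, toGeneric hG, hO,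
    ⟨⟨?_, ?_⟩, ?_⟩, ?_⟩
  · refine ⟨u, p₁, s, p₂, hP, rfl, hC.hu, hb, ?_, ?_, ?_⟩
    · rw [map_pow]; exact eX
    · rw [map_mul, map_pow, map_pow]; exact eY
    · exact (UE4.of_UEG hG).eq
  · intro f
    rw [supp_iff, supp_iff, hC.IsUn_iff]
    rw [hH]
  · intro f
    exact (lin_chg hC.hu).symm
  · intro f
    have := lineS_chg (X := X) (Y := Y) hC (AddSubgroup.zmultiples (Point.some p₁ p₂ hP)) f
    rw [hH] at this
    exact this
  · intro htop
    rw [eq_top_iff, ← htop, IntermediateField.adjoin_le_iff]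
    set L := IntermediateField.adjoin k {UEG.nx F u p₁ X, UEG.ny F u p₁ s p₂ X Y} with hL
    have hx : UEG.nx F u p₁ X ∈ L := IntermediateField.subset_adjoin k _ (Set.mem_insert _ _)
    have hy : UEG.ny F u p₁ s p₂ X Y ∈ L :=
      IntermediateField.subset_adjoin k _ (Set.mem_insert_of_mem _ (Set.mem_singleton _))
    have hc : ∀ c : k, algebraMap k F c ∈ L := fun c => L.algebraMap_mem c
    have hX : X ∈ L := by
      rw [eX]
      exact add_mem (mul_mem (pow_mem (hc _) 2) hx) (hc _)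
    have hY : Y ∈ L := by
      rw [eY]
      exact add_mem (add_mem (mul_mem (pow_mem (hc _) 3) hy)
        (mul_mem (mul_mem (pow_mem (hc _) 2) (hc _)) hx)) (hc _)
    rintro z (rfl | rfl)
    · exact hX
    · exact hY

/-- points of order six -/
theorem tate6 (hg : Generic W X Y) (P : W.Point) (h : addOrderOf P = 6) :
    ∃ (t : k) (x y : F) (hb : UE6.bb t ≠ 0), t ≠ 0 ∧ t + 1 ≠ 0 ∧
      Tate P X Y (t + t ^ 2) t x y ∧ Generic (Wt (UE6.bb t) (UE6.cc t)) x y ∧
      addOrderOf (P0 (UE6.cc t) hb) = 6 ∧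
      SameS (AddSubgroup.zmultiples P) X Y (AddSubgroup.zmultiples (P0 (UE6.cc t) hb)) x y ∧
      (IntermediateField.adjoin k {X, Y} = ⊤ → IntermediateField.adjoin k {x, y} = ⊤) := by
  obtain ⟨b, c, x, y, hb, h1, h2, h3, h4, h5⟩ := exists_tateS hg P (by norm_num : 4 ≤ 6) h
  have e : b = c + c ^ 2 := UEG.b_of_six hb (by rw [← h3]; exact addOrderOf_nsmul_eq_zero _)
  have e' : b = UE6.bb c := by rw [e]; unfold UE6.bb; ring
  have hb1 : c * (c + 1) ≠ 0 := by
    intro h'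
    apply hb
    rw [e]
    linear_combination h'
  have h1' : Tate P X Y (c + c ^ 2) c x y := by rw [← e]; exact h1
  clear e h1
  subst e'
  exact ⟨c, x, y, hb, left_ne_zero_of_mul hb1, right_ne_zero_of_mul hb1, h1', h2, h3, h4, h5⟩

/-- points of order seven -/
theorem tate7 (hg : Generic W X Y) (P : W.Point) (h : addOrderOf P = 7) :
    ∃ (t : k) (x y : F) (hb : K7.bb t ≠ 0), t ≠ 0 ∧ t ≠ 1 ∧
      Tate P X Y (t ^ 3 - t ^ 2) (t ^ 2 - t) x y ∧ Generic (Wt (K7.bb t) (K7.cc t)) x y ∧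
      addOrderOf (P0 (K7.cc t) hb) = 7 ∧
      SameS (AddSubgroup.zmultiples P) X Y (AddSubgroup.zmultiples (P0 (K7.cc t) hb)) x y ∧
      (IntermediateField.adjoin k {X, Y} = ⊤ → IntermediateField.adjoin k {x, y} = ⊤) := by
  obtain ⟨b, c, x, y, hb, h1, h2, h3, h4, h5⟩ := exists_tateS hg P (by norm_num : 4 ≤ 7) h
  obtain ⟨t, ht, ht1, ec, eb⟩ := UEG.bc_of_seven hb (by rw [← h3]; exact addOrderOf_nsmul_eq_zero _)
  have ec' : c = K7.cc t := by rw [ec]; rfl
  have eb' : b = K7.bb t := by rw [eb]; rfl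
  have e1 : t ^ 3 - t ^ 2 = b := by rw [eb]; ring
  have e2 : t ^ 2 - t = c := by rw [ec]; ring
  clear ec eb
  rw [← e1, ← e2] at h1
  clear e1 e2
  subst ec' eb'
  exact ⟨t, x, y, hb, ht, ht1, h1, h2, h3, h4, h5⟩

/-- points of order eight -/
theorem tate8 (hg : Generic W X Y) (P : W.Point) (h : addOrderOf P = 8) :
    ∃ (t : k) (x y : F) (hb : UE8.bb t ≠ 0), t ≠ 0 ∧ t - 1 ≠ 0 ∧ 2 * t - 1 ≠ 0 ∧
      Tate P X Y ((2 * t - 1) * (t - 1)) ((2 * t - 1) * (t - 1) / t) x y ∧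
      Generic (Wt (UE8.bb t) (UE8.cc t)) x y ∧
      addOrderOf (P0 (UE8.cc t) hb) = 8 ∧
      SameS (AddSubgroup.zmultiples P) X Y (AddSubgroup.zmultiples (P0 (UE8.cc t) hb)) x y ∧
      (IntermediateField.adjoin k {X, Y} = ⊤ → IntermediateField.adjoin k {x, y} = ⊤) := by
  obtain ⟨b, c, x, y, hb, h1, h2, h3, h4, h5⟩ := exists_tateS hg P (by norm_num : 4 ≤ 8) h
  obtain ⟨t, ht, eb, ec, hc⟩ := UEG.bc_of_eight hb h3
  have ec' : c = UE8.cc t := by
    unfold UE8.cc
    rw [eq_div_iff ht, ← ec, eb]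
  have eb' : b = UE8.bb t := by rw [eb]; rfl
  have hb1 : (2 * t - 1) * (t - 1) ≠ 0 := by rw [← eb]; exact hb
  clear ec eb
  subst ec' eb'
  exact ⟨t, x, y, hb, ht, right_ne_zero_of_mul hb1, left_ne_zero_of_mul hb1, h1, h2, h3, h4, h5⟩

end Pool.Agent.FK4
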