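import Pool.Agent.Lib_helper76.FAM.Thr
import Pool.Agent.Lib_helper24.FAM.Tr

/-!
# Orders four and five: the solutions are quotients of lines through a point of the curve
-/

set_option autoImplicit false
set_option linter.unusedSectionVars false

namespace Pool.Agent.FK4

open WeierstrassCurve.Affine
open TN (Wt Orb)
open UEG (P0 ns0)

variable {k : Type*} [Field k] [DecidableEq k] {F : Type*} [Field F] [Algebra k F] {x y : F}

lemma thr_of {W : WeierstrassCurve.Affine k} {a b : k} (h : W.Nonsingular a b) {l : F}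
    (β γ δ : k) (hl : l = algebraMap k F β * x + algebraMap k F γ * y + algebraMap k F δ)
    (h0 : β * a + γ * b + δ = 0) : Thr x y (.some a b h : W.Point) l := by
  refine ⟨β, γ, ?_⟩
  obtain rfl : δ = -(β * a + γ * b) := by linear_combination h0
  rw [hl]
  simp only [map_neg, map_add, map_mul]
  ring

/-! ### order four -/

section N4

variable {b : k}

lemma lineS4 [CharZero k] (hb : b ≠ 0) (hO : addOrderOf (P0 (0 : k) hb) = 4)
    (h : Generic (Wt b 0) x y) :
    LineS (AddSubgroup.zmultiples (P0 (0 : k) hb)) x y (x / algebraMap k F b) ∧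
    LineS (AddSubgroup.zmultiples (P0 (0 : k) hb)) x y (y / x ^ 2) := by
  have hs := supp4 hb hO h
  have hg := gen4 h
  have hx := hg.x_ne
  have hy := hg.y_ne
  have hx1 := hg.xc_ne b
  have hB : algebraMap k F b ≠ 0 := (_root_.map_ne_zero _).mpr hb
  have he := hg.eq
  rw [map_zero] at he
  have sx : Supp (AddSubgroup.zmultiples (P0 (0 : k) hb)) x y x :=
    (hs x).mpr ⟨1, 1, 0, 0, one_ne_zero, by unfold TN.N4.M; simp⟩
  have sx1 : Supp (AddSubgroup.zmultiples (P0 (0 : k) hb)) x y (x - algebraMap k F b) :=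
    (hs _).mpr ⟨1, 0, 1, 0, one_ne_zero, by unfold TN.N4.M; simp⟩
  have sy' : Supp (AddSubgroup.zmultiples (P0 (0 : k) hb)) x y y :=
    (hs _).mpr ⟨1, 0, 0, 1, one_ne_zero, by unfold TN.N4.M; simp⟩
  constructor
  · exact LineS.of_two (S := 0) (L := x) (T := 1) thr_X thr_one supp_one (by rw [div_one]) hb sx
      sx1
  · -- `y / x² = (x - b) / (y + x - b)`
    obtain ⟨h2, -⟩ := UEG.two_P0 (c := (0 : k)) hb
    have e1 : y * (y + x - algebraMap k F b) = x ^ 2 * (x - algebraMap k F b) := by
      linear_combination he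
    have hT : y + x - algebraMap k F b ≠ 0 := by
      intro h'
      rw [h', mul_zero] at e1
      exact mul_ne_zero (pow_ne_zero 2 hx) hx1 e1.symm
    have eT : y + x - algebraMap k F b = x ^ 2 * (x - algebraMap k F b) / y := by
      rw [eq_div_iff hy, mul_comm]; exact e1
    refine ⟨.some _ _ h2, x - algebraMap k F b, y + x - algebraMap k F b, thr_vert h2,
      thr_of h2 1 1 (-b) (by rw [map_one, map_neg]; ring) (by ring), sx1, ?_, ?_, ?_⟩
    · rw [eT]
      exact ((sx.pow 2).mul sx1).div sy'
    · have : y + x - algebraMap k F b - (x - algebraMap k F b) = y := by ring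
      rw [this]; exact sy'
    · rw [div_eq_div_iff (pow_ne_zero 2 hx) hT]
      linear_combination e1

/-- **the unit equation for a point of order four** -/
theorem unitEqS4 [CharZero k] (hb : b ≠ 0) (hO : addOrderOf (P0 (0 : k) hb) = 4)
    (h : Generic (Wt b 0) x y) : UnitEqS (AddSubgroup.zmultiples (P0 (0 : k) hb)) x y := by
  refine unitEqS_of fun f h1 h2 => ?_
  rcases TN.N4.orb hb (gen4 h) ((supp4 hb hO h f).mp h1) ((supp4 hb hO h _).mp h2) with
    h3 | h3 | h3
  · exact Or.inl h3
  · exact Or.inr ((lineS4 hb hO h).1.orb h3)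
  · exact Or.inr ((lineS4 hb hO h).2.orb h3)

end N4

/-! ### order five -/

section N5

variable {b : k}

lemma lineS5 [CharZero k] (hb : b ≠ 0) (hO : addOrderOf (P0 b hb) = 5)
    (h : Generic (Wt b b) x y) (j : Fin 5) :
    LineS (AddSubgroup.zmultiples (P0 b hb)) x y (TN.N5.v b x y j) := by
  set H := AddSubgroup.zmultiples (P0 b hb) with hH
  have hs : ∀ f, Supp H x y f ↔ TN.N5.U b x y f := supp5 hb hO h
  have hg := gen5 h
  have hx := hg.x_ne
  have hy := hg.y_ne
  have hx1 := hg.xc_ne b
  have hw := TN.N5.Gen.w_ne hg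
  have hB : algebraMap k F b ≠ 0 := (_root_.map_ne_zero _).mpr hb
  have he := hg.eq
  obtain ⟨m2, -⟩ := UEG.two_P0 (c := b) hb
  obtain ⟨m3, -⟩ := UEG.three_P0 (c := b) hb
  have m4 : (Wt b b).Nonsingular 0 b := by
    have := (WeierstrassCurve.Affine.nonsingular_neg (W' := Wt b b) 0 0).mpr (ns0 hb)
    rw [UEG.negY_wt, show -(0 : k) - (1 - b) * 0 + b = b by ring] at this
    exact this
  have sx : Supp H x y x := (hs x).mpr ⟨1, 1, 0, 0, 0, one_ne_zero, by unfold TN.N5.M; simp⟩
  have sx1 : Supp H x y (x - algebraMap k F b) :=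
    (hs _).mpr ⟨1, 0, 1, 0, 0, one_ne_zero, by unfold TN.N5.M; simp⟩
  have sy' : Supp H x y y := (hs _).mpr ⟨1, 0, 0, 1, 0, one_ne_zero, by unfold TN.N5.M; simp⟩
  have sw : Supp H x y (y - algebraMap k F b * x) :=
    (hs _).mpr ⟨1, 0, 0, 0, 1, one_ne_zero, by unfold TN.N5.M; simp⟩
  have eB : y + (1 - algebraMap k F b) * x - algebraMap k F b =
      x ^ 2 * (x - algebraMap k F b) / y := by
    rw [eq_div_iff hy]; linear_combination he
  have eA : y + x - algebraMap k F b = x * (x - algebraMap k F b) ^ 2 /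
      (y - algebraMap k F b * x) := by
    rw [eq_div_iff hw]; linear_combination he
  have sB : Supp H x y (y + (1 - algebraMap k F b) * x - algebraMap k F b) := by
    rw [eB]; exact ((sx.pow 2).mul sx1).div sy'
  have sA : Supp H x y (y + x - algebraMap k F b) := by
    rw [eA]; exact (sx.mul (sx1.pow 2)).div sw
  have sb : Supp H x y (algebraMap k F b) := supp_const hb
  have hA := sA.1
  have hB' := sB.1
  fin_cases j
  · exact ⟨0, algebraMap k F b, x, thr_const b, thr_X, sb, sx, sx1, rfl⟩
  · refine ⟨.some _ _ m4, y + x - algebraMap k F b,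
      y + (1 - algebraMap k F b) * x - algebraMap k F b,
      thr_of m4 1 1 (-b) (by rw [map_one, map_neg]; ring) (by ring),
      thr_of m4 (1 - b) 1 (-b) (by rw [map_sub, map_one, map_neg]; ring) (by ring),
      sA, sB, ?_, ?_⟩
    · have : y + (1 - algebraMap k F b) * x - algebraMap k F b - (y + x - algebraMap k F b) =
          -(algebraMap k F b * x) := by ring
      rw [this]
      exact (sb.mul sx).neg
    · show y * (x - algebraMap k F b) / (x * (y - algebraMap k F b * x)) = _
      rw [eA, eB]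
      field_simp
  · refine ⟨.some _ _ m3, -y, x - algebraMap k F b,
      thr_of m3 0 (-1) 0 (by rw [map_neg, map_one, map_zero]; ring) (by ring), thr_vert m3,
      sy'.neg, sx1, ?_, rfl⟩
    have : x - algebraMap k F b - -y = y + x - algebraMap k F b := by ring
    rw [this]; exact sA
  · refine ⟨.some _ _ m2, y + (1 - algebraMap k F b) * x - algebraMap k F b,
      x - algebraMap k F b,
      thr_of m2 (1 - b) 1 (-b) (by rw [map_sub, map_one, map_neg]; ring) (by ring),
      thr_vert m2, sB, sx1, ?_, ?_⟩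
    · have : x - algebraMap k F b - (y + (1 - algebraMap k F b) * x - algebraMap k F b) =
          -(y - algebraMap k F b * x) := by ring
      rw [this]; exact sw.neg
    · show x ^ 2 / y = _
      rw [eB]
      field_simp
  · refine ⟨.some _ _ (ns0 hb), y - algebraMap k F b * x, y,
      thr_of (ns0 hb) (-b) 1 0 (by rw [map_one, map_neg, map_zero]; ring) (by ring),
      thr_of (ns0 hb) 0 1 0 (by rw [map_one, map_zero]; ring) (by ring), sw, sy', ?_, rfl⟩
    have : y - (y - algebraMap k F b * x) = algebraMap k F b * x := by ring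
    rw [this]; exact sb.mul sx

/-- **the unit equation for a point of order five** -/
theorem unitEqS5 [CharZero k] (hb : b ≠ 0) (h1 : b ≠ 1) (h1' : b ≠ -1)
    (hO : addOrderOf (P0 b hb) = 5) (h : Generic (Wt b b) x y) :
    UnitEqS (AddSubgroup.zmultiples (P0 b hb)) x y := by
  refine unitEqS_of fun f h1f h2f => ?_
  rcases TN.N5.unit_eq hb (gen5 h) f ((supp5 hb hO h f).mp h1f) ((supp5 hb hO h _).mp h2f) with
    h3 | ⟨j, h3⟩ | ⟨h3, -⟩ | ⟨h3, -⟩
  · exact Or.inl h3
  · exact Or.inr ((lineS5 hb hO h j).orb h3)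
  · exact absurd h3 h1
  · exact absurd h3 h1'

end N5

end Pool.Agent.FK4
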