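import Pool.Agent.Lib_helper76.FAM.Cr
import Pool.Agent.Lib_helper76.UEG.BC

/-!
# Quotients of lines through a point of the curve are cross ratios, over the function field
-/

set_option autoImplicit false
set_option linter.unusedSectionVars false

namespace Pool.Agent.FK4

open WeierstrassCurve.Affine UEG

variable {k : Type*} [Field k] [DecidableEq k] {W : WeierstrassCurve.Affine k} {F : Type*}
  [Field F] [DecidableEq F] [Algebra k F] {x y : F} {H : AddSubgroup W.Point}

/-- base change -/
lemma vv_bc (S u : W.Point) : vv (bc F W S) (bc F W u) =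
    (algebraMap k F (vv S u).1, algebraMap k F (vv S u).2) := by
  rcases S with _ | ⟨p, q, hS⟩ <;> rcases u with _ | ⟨a, b, hu⟩
  · show ((0 : F), (1 : F)) = (algebraMap k F 0, algebraMap k F 1)
    rw [map_zero, map_one]
  · show ((1 : F), algebraMap k F a) = (algebraMap k F 1, algebraMap k F a)
    rw [map_one]
  · show ((0 : F), (1 : F)) = (algebraMap k F 0, algebraMap k F 1)
    rw [map_zero, map_one]
  · rw [bc_some, bc_some]
    show (if algebraMap k F p = algebraMap k F a ∧ algebraMap k F q =
      (WF F W).negY (algebraMap k F a) (algebraMap k F b) then ((0 : F), (1 : F)) else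
      (1, (WF F W).slope (algebraMap k F p) (algebraMap k F a) (algebraMap k F q)
        (algebraMap k F b))) = _
    rw [WeierstrassCurve.Affine.map_negY, WeierstrassCurve.Affine.map_slope]
    by_cases h : p = a ∧ q = W.negY a b
    · rw [if_pos ⟨by rw [h.1], by rw [h.2]⟩]
      have : vv (.some p q hS) (.some a b hu) = (0, 1) := by
        show (if p = a ∧ q = W.negY a b then ((0 : k), (1 : k)) else _) = _
        rw [if_pos h]
      rw [this, map_zero, map_one]
    · rw [if_neg fun h' => h ⟨inj k F h'.1, inj k F h'.2⟩]
      have : vv (.some p q hS) (.some a b hu) = (1, W.slope p a q b) := by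
        show (if p = a ∧ q = W.negY a b then ((0 : k), (1 : k)) else _) = _
        rw [if_neg h]
      rw [this, map_one]

/-- the generic point -/
lemma vv_gen (h : UEG.Gen W x y) (hz : (WF F W).Nonsingular x y) (S : W.Point) :
    vv (bc F W S) (.some x y hz) = (1, zc x y S) := by
  rcases S with _ | ⟨p, q, hS⟩
  · rfl
  · have hX := h.x_sub_ne p
    have hne : algebraMap k F p ≠ x := fun h' => hX (by rw [h', sub_self])
    rw [bc_some]
    show (if algebraMap k F p = x ∧ algebraMap k F q = (WF F W).negY x y then ((0 : F), (1 : F)) else
      (1, (WF F W).slope (algebraMap k F p) x (algebraMap k F q) y)) = _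
    rw [if_neg fun h' => hne h'.1, slope_of_X_ne hne]
    show _ = ((1 : F), (y - algebraMap k F q) / (x - algebraMap k F p))
    rw [← neg_sub y, ← neg_sub x, neg_div_neg_eq]

/-- the cross ratio of the lines joining `S` with four points -/
noncomputable def cr4 (S z u v w : (WF F W).Point) : F :=
  dd (vv S z) (vv S u) * dd (vv S v) (vv S w) / (dd (vv S z) (vv S v) * dd (vv S u) (vv S w))

/-- **quotients of lines through a point of the curve, supported on `H`, are the constants and the
cross ratios of the lines joining a point of `H` with the generic point and three points of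
`H`** -/
theorem lineS_cr4 (h : UEG.Gen W x y) (hz : (WF F W).Nonsingular x y) {f : F}
    (hf : LineS H x y f) :
    (∃ c : k, f = algebraMap k F c) ∨ ∃ S ∈ H, ∃ u ∈ H, ∃ v ∈ H, ∃ w ∈ H,
      dd (vv S u) (vv S v) ≠ 0 ∧ dd (vv S u) (vv S w) ≠ 0 ∧ dd (vv S v) (vv S w) ≠ 0 ∧
      f = cr4 (bc F W S) (.some x y hz) (bc F W u) (bc F W v) (bc F W w) := by
  rcases lineS_cr h hf with h1 | ⟨S, hS, u, hu, v, hv, w, hw, h1, h2, h3, h4⟩
  · exact Or.inl h1
  · right
    refine ⟨S, hS, u, hu, v, hv, w, hw, h1, h2, h3, ?_⟩
    rw [h4]
    unfold cr4
    rw [vv_gen h, vv_bc, vv_bc, vv_bc]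
    unfold dd dz
    simp only [map_sub, map_mul, one_mul]

/-- and conversely -/
theorem cr4_lineS (h : UEG.Gen W x y) (hz : (WF F W).Nonsingular x y) {S u v w : W.Point}
    (hS : S ∈ H) (hu : u ∈ H) (hv : v ∈ H) (hw : w ∈ H) (h1 : dd (vv S u) (vv S v) ≠ 0)
    (h2 : dd (vv S u) (vv S w) ≠ 0) (h3 : dd (vv S v) (vv S w) ≠ 0) :
    LineS H x y (cr4 (bc F W S) (.some x y hz) (bc F W u) (bc F W v) (bc F W w)) := by
  have hr := rh_ne h S
  have hG := good_IsUn (H := H) h
  -- the lines
  have line : ∀ u ∈ H, Thr x y S (rh x S * dz x y S u) ∧ Supp H x y (rh x S * dz x y S u) := by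
    intro u hu
    rcases S with _ | ⟨p, q, hS'⟩
    · rcases u with _ | ⟨a, b, hab⟩
      · have e : rh x (0 : W.Point) * dz x y (0 : W.Point) 0 = (1 : F) := by
          show 1 * (algebraMap k F 1 - x * algebraMap k F 0) = 1
          rw [map_zero, map_one]; ring
        refine ⟨?_, ?_⟩
        · show Thr x y (0 : W.Point) (rh x (0 : W.Point) * dz x y (0 : W.Point) 0)
          rw [e]; exact thr_one
        · show Supp H x y (rh x (0 : W.Point) * dz x y (0 : W.Point) 0)
          rw [e]; exact supp_one
      · have e : rh x (Point.zero : W.Point) * dz x y (Point.zero : W.Point) (.some a b hab) = -(x - algebraMap k F a) := by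
          show 1 * (algebraMap k F a - x * algebraMap k F 1) = _
          rw [map_one]; ring
        rw [e]
        refine ⟨(thr_vert0 a).neg, Supp.neg (supp_iff.mpr ?_)⟩
        have := hG.hx a b ⟨hab, hu⟩
        rwa [hR_sub] at this
    · have hX := h.x_sub_ne p
      have vert : ∀ u, vv (.some p q hS') u = (0, 1) →
          Thr x y (.some p q hS') (rh x (.some p q hS' : W.Point) * dz x y (.some p q hS') u) ∧
          Supp H x y (rh x (.some p q hS' : W.Point) * dz x y (.some p q hS') u) := by
        intro u hu
        have e : rh x (.some p q hS' : W.Point) * dz x y (.some p q hS') u = x - algebraMap k F p := by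
          unfold dz
          rw [hu]
          show (x - algebraMap k F p) * (algebraMap k F 1 - _ * algebraMap k F 0) = _
          rw [map_zero, map_one]; ring
        rw [e]
        refine ⟨thr_vert hS', supp_iff.mpr ?_⟩
        have := hG.hx p q ⟨hS', hS⟩
        rwa [hR_sub] at this
      rcases u with _ | ⟨a, b, hab⟩
      · exact vert _ rfl
      · by_cases hv : p = a ∧ q = W.negY a b
        · apply vert
          show (if p = a ∧ q = W.negY a b then ((0 : k), (1 : k)) else _) = _
          rw [if_pos hv]
        · have e1 : vv (.some p q hS') (.some a b hab) = (1, W.slope p a q b) := by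
            show (if p = a ∧ q = W.negY a b then ((0 : k), (1 : k)) else _) = _
            rw [if_neg hv]
          have e : rh x (.some p q hS' : W.Point) * dz x y (.some p q hS') (.some a b hab) =
              -(y - algebraMap k F q - algebraMap k F (W.slope p a q b) *
                (x - algebraMap k F p)) := by
            unfold dz
            rw [e1]
            show (x - algebraMap k F p) * (algebraMap k F (W.slope p a q b) -
              (y - algebraMap k F q) / (x - algebraMap k F p) * algebraMap k F 1) = _
            rw [map_one]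
            field_simp
            ring
          rw [e]
          constructor
          · refine Thr.neg ⟨-W.slope p a q b, 1, ?_⟩
            rw [map_neg, map_one]; ring
          · refine Supp.neg (supp_iff.mpr ?_)
            have := hG.hl p q a b ⟨hS', hS⟩ ⟨hab, hu⟩ hv
            unfold ln linePolynomial at this
            rw [map_sub, hR_y, hR_iP] at this
            simp only [Polynomial.eval₂_add, Polynomial.eval₂_mul, Polynomial.eval₂_sub,
              Polynomial.eval₂_C, Polynomial.eval₂_X] at this
            have e2 : y - algebraMap k F q - algebraMap k F (W.slope p a q b) *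
                (x - algebraMap k F p) = y - (algebraMap k F (W.slope p a q b) *
                  (x - algebraMap k F p) + algebraMap k F q) := by ring
            rw [e2]
            exact this
  obtain ⟨t1, s1⟩ := line u hu
  obtain ⟨t2, s2⟩ := line v hv
  obtain ⟨t3, s3⟩ := line w hw
  have D1 : algebraMap k F (dd (vv S u) (vv S w)) ≠ 0 := (_root_.map_ne_zero _).mpr h2
  refine ⟨S, algebraMap k F (dd (vv S v) (vv S w)) * (rh x S * dz x y S u),
    algebraMap k F (dd (vv S u) (vv S w)) * (rh x S * dz x y S v), t1.smul _, t2.smul _,
    (supp_const h3).mul s1, (supp_const h2).mul s2, ?_, ?_⟩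
  · have e : algebraMap k F (dd (vv S u) (vv S w)) * (rh x S * dz x y S v) -
        algebraMap k F (dd (vv S v) (vv S w)) * (rh x S * dz x y S u) =
        algebraMap k F (dd (vv S u) (vv S v)) * (rh x S * dz x y S w) := by
      unfold dd dz
      simp only [map_sub, map_mul]
      ring
    rw [e]
    exact (supp_const h1).mul s3
  · have d2 : dz x y S v ≠ 0 := fun h' => s2.1 (by rw [h', mul_zero])
    unfold cr4
    rw [vv_gen h, vv_bc, vv_bc, vv_bc]
    have g1 : dd ((1 : F), zc x y S) (algebraMap k F (vv S u).1, algebraMap k F (vv S u).2) =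
        dz x y S u := by unfold dd dz; simp only [one_mul]
    have g2 : dd ((1 : F), zc x y S) (algebraMap k F (vv S v).1, algebraMap k F (vv S v).2) =
        dz x y S v := by unfold dd dz; simp only [one_mul]
    have g3 : ∀ a b : W.Point, dd (algebraMap k F (vv S a).1, algebraMap k F (vv S a).2)
        (algebraMap k F (vv S b).1, algebraMap k F (vv S b).2) =
          algebraMap k F (dd (vv S a) (vv S b)) := by
      intro a b
      unfold dd
      simp only [map_sub, map_mul]
    rw [g1, g2, g3, g3, div_eq_div_iff (mul_ne_zero d2 D1) (mul_ne_zero D1 (mul_ne_zero hr d2))]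
    ring

end Pool.Agent.FK4
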