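import Pool.Agent.Lib_helper76.FAM.Lines

/-!
# Quotients of lines through a point of the curve are cross ratios
-/

set_option autoImplicit false
set_option linter.unusedSectionVars false

namespace Pool.Agent.FK4

open WeierstrassCurve.Affine Polynomial UEG

section defs

variable {K : Type*} [Field K] [DecidableEq K] {W : WeierstrassCurve.Affine K}

/-- the line joining `T` and `u`, as a point of the projective line -/
def vv : W.Point → W.Point → K × K
  | 0, 0 => (0, 1)
  | 0, .some x _ _ => (1, x)
  | .some _ _ _, 0 => (0, 1)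
  | .some p q _, .some x y _ => if p = x ∧ q = W.negY x y then (0, 1) else (1, W.slope p x q y)

/-- the determinant -/
def dd (a b : K × K) : K := a.1 * b.2 - a.2 * b.1

lemma dd_swap (a b : K × K) : dd b a = -dd a b := by unfold dd; ring

end defs

variable {k : Type*} [Field k] [DecidableEq k] {W : WeierstrassCurve.Affine k} {F : Type*}
  [Field F] [Algebra k F] {x y : F} {H : AddSubgroup W.Point}

/-- `vv T u` is normalised -/
lemma vv_norm (T u : W.Point) : vv T u = (0, 1) ∨ ∃ s, vv T u = (1, s) := by
  rcases T with _ | ⟨p, q, hT⟩ <;> rcases u with _ | ⟨a, b, hu⟩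
  · exact Or.inl rfl
  · exact Or.inr ⟨a, rfl⟩
  · exact Or.inl rfl
  · by_cases h : p = a ∧ q = W.negY a b
    · left
      show (if p = a ∧ q = W.negY a b then ((0 : k), (1 : k)) else _) = _
      rw [if_pos h]
    · right
      refine ⟨W.slope p a q b, ?_⟩
      show (if p = a ∧ q = W.negY a b then ((0 : k), (1 : k)) else _) = _
      rw [if_neg h]

lemma vv_eq_of {T u v : W.Point} (h : dd (vv T u) (vv T v) = 0) : vv T u = vv T v := by
  rcases vv_norm T u with h1 | ⟨s, h1⟩ <;> rcases vv_norm T v with h2 | ⟨s', h2⟩ <;>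
    rw [h1, h2] at h ⊢ <;> unfold dd at h
  · simp at h
  · simp at h
  · simp only [one_mul, mul_one] at h
    rw [sub_eq_zero] at h
    rw [h]

/-- the coordinate of the generic point in the pencil of lines through `S` -/
noncomputable def zc (x y : F) : W.Point → F
  | 0 => x
  | .some p q _ => (y - algebraMap k F q) / (x - algebraMap k F p)

/-- the common factor -/
noncomputable def rh (x : F) : W.Point → F
  | 0 => 1
  | .some p _ _ => x - algebraMap k F p

/-- the determinant of the generic point and a point -/
noncomputable def dz (x y : F) (S u : W.Point) : F :=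
  algebraMap k F (vv S u).2 - zc x y S * algebraMap k F (vv S u).1

lemma rh_ne (h : UEG.Gen W x y) (S : W.Point) : rh x S ≠ 0 := by
  rcases S with _ | ⟨p, q, hS⟩
  · exact one_ne_zero
  · exact h.x_sub_ne p

/-- a line through `S` which is supported on `H` joins `S` and a point of `H` -/
lemma line_class (h : UEG.Gen W x y) {S : W.Point} {l : F} (hl : Thr x y S l)
    (hs : Supp H x y l) : ∃ u ∈ H, ((vv S u).1 ≠ 0 → S ∈ H) ∧
      ∃ κ : k, κ ≠ 0 ∧ l = algebraMap k F κ * (rh x S * dz x y S u) := by
  rw [supp_iff] at hs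
  rcases S with _ | ⟨p, q, hS⟩
  · obtain ⟨a, b, rfl⟩ := hl
    by_cases hb : b = 0
    · subst hb
      have ha : a ≠ 0 := by
        rintro rfl
        exact hs.1 (by rw [map_zero, zero_mul, add_zero])
      refine ⟨0, zero_mem _, fun _ => zero_mem _, a, ha, ?_⟩
      show _ = algebraMap k F a * (1 * (algebraMap k F 1 - x * algebraMap k F 0))
      rw [map_zero, map_one]
      ring
    · have hB : algebraMap k F b ≠ 0 := (_root_.map_ne_zero _).mpr hb
      have e1 : algebraMap k F a + algebraMap k F b * x =
          algebraMap k F b * (x - algebraMap k F (-a / b)) := by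
        rw [map_div₀, map_neg]; field_simp; ring
      have h1 : IsUn H x y (x - algebraMap k F (-a / b)) := by
        have h2 := (good_IsUn (H := H) h).hm _ _ ((good_IsUn (H := H) h).hi _ (by
          have := (good_IsUn (H := H) h).hc b hb
          rwa [hR_c] at this)) hs
        rw [e1, ← mul_assoc, inv_mul_cancel₀ hB, one_mul] at h2
        exact h2
      obtain ⟨b', h3, h4⟩ := supp_vert h h1
      refine ⟨.some _ _ h3, h4, fun _ => zero_mem _, -b, neg_ne_zero.mpr hb, ?_⟩
      rw [e1]
      show _ = algebraMap k F (-b) * (1 * (algebraMap k F (-a / b) - x * algebraMap k F 1))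
      rw [map_one, map_neg]
      ring
  · obtain ⟨b, c, rfl⟩ := hl
    have hX := h.x_sub_ne p
    by_cases hc : c = 0
    · subst hc
      have hb : b ≠ 0 := by
        rintro rfl
        exact hs.1 (by rw [map_zero, zero_mul, zero_mul, add_zero])
      refine ⟨0, zero_mem _, fun h' => absurd rfl h', b, hb, ?_⟩
      show _ = algebraMap k F b * ((x - algebraMap k F p) * (algebraMap k F 1 -
        (y - algebraMap k F q) / (x - algebraMap k F p) * algebraMap k F 0))
      rw [map_zero, map_one]
      ring
    · have hC : algebraMap k F c ≠ 0 := (_root_.map_ne_zero _).mpr hc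
      have e1 : algebraMap k F b * (x - algebraMap k F p) + algebraMap k F c *
          (y - algebraMap k F q) = algebraMap k F c * (y - algebraMap k F q -
            algebraMap k F (-b / c) * (x - algebraMap k F p)) := by
        rw [map_div₀, map_neg]; field_simp; ring
      have h1 : IsUn H x y (y - algebraMap k F q -
            algebraMap k F (-b / c) * (x - algebraMap k F p)) := by
        have h2 := (good_IsUn (H := H) h).hm _ _ ((good_IsUn (H := H) h).hi _ (by
          have := (good_IsUn (H := H) h).hc c hc
          rwa [hR_c] at this)) hs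
        rw [e1, ← mul_assoc, inv_mul_cancel₀ hC, one_mul] at h2
        exact h2
      obtain ⟨⟨h8, h9⟩, a, b', ⟨h3, h4⟩, h5, h6⟩ := supp_line h hS h1
      refine ⟨.some _ _ h3, h4, fun _ => h9, -c, neg_ne_zero.mpr hc, ?_⟩
      rw [e1]
      have h7 : vv (.some p q hS) (.some a b' h3) = (1, -b / c) := by
        show (if p = a ∧ q = W.negY a b' then ((0 : k), (1 : k)) else _) = _
        rw [if_neg h5, h6]
      unfold dz
      rw [h7]
      show _ = algebraMap k F (-c) * ((x - algebraMap k F p) * (algebraMap k F (-b / c) -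
        (y - algebraMap k F q) / (x - algebraMap k F p) * algebraMap k F 1))
      rw [map_one, map_neg]
      field_simp
      ring

/-- `1` and the coordinate are independent -/
lemma zc_ind (h : UEG.Gen W x y) (S : W.Point) {a b : k}
    (hab : algebraMap k F a + zc x y S * algebraMap k F b = 0) : a = 0 ∧ b = 0 := by
  have key : ∀ {a b c : k}, algebraMap k F a + algebraMap k F b * x + algebraMap k F c * y = 0 →
      a = 0 ∧ b = 0 ∧ c = 0 := by
    intro a b c habc
    have e : hR h (iP (C a + C b * X) + iP (C c) * yR) = 0 := by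
      rw [map_add, map_mul, hR_y, hR_iP, hR_iP]
      simp only [eval₂_add, eval₂_mul, eval₂_C, eval₂_X]
      exact habc
    have e1 := hR_inj h (e.trans (map_zero _).symm)
    rw [← pq] at e1
    obtain ⟨h1, h2⟩ := CoordinateRing.smul_basis_eq_zero e1
    refine ⟨?_, ?_, C_eq_zero.mp h2⟩
    · have := congrArg (coeff · 0) h1
      simpa using this
    · have := congrArg (coeff · 1) h1
      simpa [coeff_C] using this
  rcases S with _ | ⟨p, q, hS⟩
  · have : algebraMap k F a + algebraMap k F b * x + algebraMap k F 0 * y = 0 := by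
      have h1 : algebraMap k F a + x * algebraMap k F b = 0 := hab
      rw [map_zero]
      linear_combination h1
    obtain ⟨h1, h2, -⟩ := key this
    exact ⟨h1, h2⟩
  · have hX := h.x_sub_ne p
    have h1 : algebraMap k F a + (y - algebraMap k F q) / (x - algebraMap k F p) *
        algebraMap k F b = 0 := hab
    have h2 : algebraMap k F (-a * p - b * q) + algebraMap k F a * x + algebraMap k F b * y = 0 := by
      field_simp at h1
      simp only [map_sub, map_mul, map_neg]
      linear_combination h1
    obtain ⟨-, h3, h4⟩ := key h2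
    exact ⟨h3, h4⟩

/-- **quotients of lines through a point of the curve are constants or cross ratios** -/
theorem lineS_cr (h : UEG.Gen W x y) {f : F} (hf : LineS H x y f) :
    (∃ c : k, f = algebraMap k F c) ∨ ∃ S ∈ H, ∃ u ∈ H, ∃ v ∈ H, ∃ w ∈ H,
      dd (vv S u) (vv S v) ≠ 0 ∧ dd (vv S u) (vv S w) ≠ 0 ∧ dd (vv S v) (vv S w) ≠ 0 ∧
      f = dz x y S u * algebraMap k F (dd (vv S v) (vv S w)) /
        (dz x y S v * algebraMap k F (dd (vv S u) (vv S w))) := by
  obtain ⟨S, l, m, h1, h2, h3, h4, h5, rfl⟩ := hf
  obtain ⟨u, hu, hu', κ₁, k1, e1⟩ := line_class h h1 h3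
  obtain ⟨v, hv, hv', κ₂, k2, e2⟩ := line_class h h2 h4
  obtain ⟨w, hw, hw', κ₃, k3, e3⟩ := line_class h (h2.sub h1) h5
  have hr := rh_ne h S
  have K1 : algebraMap k F κ₁ ≠ 0 := (_root_.map_ne_zero _).mpr k1
  have K2 : algebraMap k F κ₂ ≠ 0 := (_root_.map_ne_zero _).mpr k2
  have hz2 : dz x y S v ≠ 0 := by
    intro h'
    apply h4.1
    rw [e2, h', mul_zero, mul_zero]
  -- the linear relation
  have e4 : algebraMap k F κ₂ * dz x y S v - algebraMap k F κ₁ * dz x y S u =
      algebraMap k F κ₃ * dz x y S w := by
    rw [e1, e2] at e3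
    apply mul_left_cancel₀ hr
    linear_combination e3
  have e5 : algebraMap k F (κ₂ * (vv S v).2 - κ₁ * (vv S u).2 - κ₃ * (vv S w).2) +
      zc x y S * algebraMap k F (-(κ₂ * (vv S v).1 - κ₁ * (vv S u).1 - κ₃ * (vv S w).1)) = 0 := by
    unfold dz at e4
    simp only [map_sub, map_mul, map_neg]
    linear_combination e4
  obtain ⟨r1, r2⟩ := zc_ind h S e5
  have d1 : κ₂ * dd (vv S v) (vv S w) = κ₁ * dd (vv S u) (vv S w) := by
    unfold dd
    linear_combination -(vv S w).1 * r1 - (vv S w).2 * r2
  have d2 : κ₂ * dd (vv S u) (vv S v) = κ₃ * dd (vv S u) (vv S w) := by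
    unfold dd
    linear_combination (vv S u).1 * r1 + (vv S u).2 * r2
  by_cases hd : dd (vv S u) (vv S w) = 0
  · left
    rw [hd, mul_zero] at d2
    have h6 := (mul_eq_zero.mp d2).resolve_left k2
    have h7 := vv_eq_of h6
    refine ⟨κ₁ / κ₂, ?_⟩
    have h8 : dz x y S u = dz x y S v := by unfold dz; rw [h7]
    rw [e1, e2, h8, map_div₀]
    field_simp
  · right
    have hSH : S ∈ H := by
      by_contra hS
      have g1 : (vv S u).1 = 0 := not_not.mp fun h' => hS (hu' h')
      have g3 : (vv S w).1 = 0 := not_not.mp fun h' => hS (hw' h')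
      apply hd
      unfold dd
      rw [g1, g3]
      ring
    refine ⟨S, hSH, u, hu, v, hv, w, hw, ?_, hd, ?_, ?_⟩
    · intro h'
      rw [h', mul_zero] at d2
      exact mul_ne_zero k3 hd d2.symm
    · intro h'
      rw [h', mul_zero] at d1
      exact mul_ne_zero k1 hd d1.symm
    · have hD : algebraMap k F (dd (vv S u) (vv S w)) ≠ 0 := (_root_.map_ne_zero _).mpr hd
      have d1' := congrArg (algebraMap k F) d1
      rw [map_mul, map_mul] at d1'
      rw [e1, e2, div_eq_div_iff (mul_ne_zero K2 (mul_ne_zero hr hz2)) (mul_ne_zero hz2 hD)]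
      linear_combination (-(rh x S * dz x y S u * dz x y S v)) * d1'

end Pool.Agent.FK4
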