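import Pool.Agent.Lib_helper76.FAM.Thr

/-!
# Lines supported on a subgroup
-/

set_option autoImplicit false
set_option linter.unusedSectionVars false

namespace Pool.Agent.FK4

open WeierstrassCurve.Affine Polynomial UEG

variable {k : Type*} [Field k] [DecidableEq k] {W : WeierstrassCurve.Affine k} {F : Type*}
  [Field F] [Algebra k F] {x y : F} {H : AddSubgroup W.Point}

/-- the norm of a function supported on `H` -/
lemma norm_of_unit (h : UEG.Gen W x y) {f : F} (hf : IsUn H x y f) {r : W.CoordinateRing}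
    (hr : f = hR h r) : ∃ (c : k) (M : Multiset k), c ≠ 0 ∧ (∀ a ∈ M, ∃ b, inH H a b) ∧
      Nm r = C c * (M.map (fun a => X - C a)).prod := by
  obtain ⟨hf0, -, h2⟩ := hf
  obtain ⟨M', hM', r', hr'⟩ := mem_RR h h2
  have e1 : r * r' = iP ((M'.map (fun a => X - C a)).prod) := by
    apply hR_inj h
    rw [map_mul, ← hr, ← hr']
    field_simp
  have e2 := congrArg Nm e1
  rw [Nm_mul, Nm_iP] at e2
  have e3 : Nm r ∣ ((M' + M').map (fun a => X - C a)).prod := by
    rw [Multiset.map_add, Multiset.prod_add, ← pow_two, ← e2]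
    exact dvd_mul_right _ _
  obtain ⟨c, M'', hc, hM'', hN⟩ := dvd_prod e3
  refine ⟨c, M'', hc, fun a ha => ?_, hN⟩
  rcases Multiset.mem_add.mp (Multiset.mem_of_le hM'' ha) with h3 | h3
  · exact hM' a h3
  · exact hM' a h3

lemma root_mem {c : k} {M : Multiset k} (hc : c ≠ 0) {a : k}
    (h : (C c * (M.map (fun a => X - C a)).prod).eval a = 0) : a ∈ M := by
  rw [eval_mul, eval_C, mul_eq_zero, or_iff_right hc, eval_multiset_prod,
    Multiset.prod_eq_zero_iff, Multiset.map_map, Multiset.mem_map] at h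
  obtain ⟨b, hb, hab⟩ := h
  simp only [Function.comp_apply, eval_sub, eval_X, eval_C] at hab
  rw [sub_eq_zero.mp hab]
  exact hb

/-- vertical lines -/
lemma supp_vert (h : UEG.Gen W x y) {a : k} (hs : IsUn H x y (x - algebraMap k F a)) :
    ∃ b, inH H a b := by
  obtain ⟨c, M, hc, hM, hN⟩ := norm_of_unit h hs (r := iP (X - C a)) (hR_sub h a).symm
  apply hM
  apply root_mem hc
  rw [← hN, Nm_iP]
  simp

/-- the other lines -/
lemma supp_line (h : UEG.Gen W x y) {p q s : k} (hS : W.Nonsingular p q)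
    (hs : IsUn H x y (y - algebraMap k F q - algebraMap k F s * (x - algebraMap k F p))) :
    inH H p q ∧ ∃ a b, inH H a b ∧ ¬(p = a ∧ q = W.negY a b) ∧ W.slope p a q b = s := by
  obtain ⟨L, hL⟩ : ∃ L : k[X], L = C s * (X - C p) + C q := ⟨_, rfl⟩
  have hLe : ∀ a, L.eval a = s * (a - p) + q := fun a => by
    rw [hL]; simp
  have hr : y - algebraMap k F q - algebraMap k F s * (x - algebraMap k F p) =
      hR h (iP (-L) + iP 1 * yR) := by
    rw [map_add, map_mul, hR_y, hR_iP, map_one, map_one, hL]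
    simp only [eval₂_neg, eval₂_add, eval₂_mul, eval₂_C, eval₂_sub, eval₂_X]
    ring
  obtain ⟨c, M, hc, hM, hN⟩ := norm_of_unit h hs hr
  have hN' := hN
  rw [Nm_pq] at hN'
  have hev : ∀ a : k, (-L) ^ 2 - -L * 1 * (C W.a₁ * X + C W.a₃) - 1 ^ 2 * (X ^ 3 + C W.a₂ * X ^ 2 +
      C W.a₄ * X + C W.a₆) = (-L) ^ 2 - -L * 1 * (C W.a₁ * X + C W.a₃) - 1 ^ 2 * (X ^ 3 +
      C W.a₂ * X ^ 2 + C W.a₄ * X + C W.a₆) → a ∈ M → W.Equation a (L.eval a) := by
    intro a _ ha
    have h1 := congrArg (eval a) hN'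
    have h2 : (C c * (M.map (fun a => X - C a)).prod).eval a = 0 := by
      rw [eval_mul, eval_multiset_prod, mul_eq_zero]
      right
      rw [Multiset.prod_eq_zero_iff, Multiset.map_map, Multiset.mem_map]
      exact ⟨a, ha, by simp⟩
    rw [h2] at h1
    simp only [eval_sub, eval_add, eval_mul, eval_pow, eval_neg, eval_X, eval_C, eval_one] at h1
    rw [equation_iff]
    linear_combination h1
  have hmem : ∀ a ∈ M, inH H a (L.eval a) := by
    intro a ha
    obtain ⟨b₀, hb₀⟩ := hM a ha
    rcases Y_eq_of_X_eq (hev a rfl ha) hb₀.eqn rfl with h1 | h1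
    · rw [h1]; exact hb₀
    · rw [h1]; exact hb₀.neg
  have hp : p ∈ M := by
    apply root_mem hc
    rw [← hN']
    simp only [eval_sub, eval_add, eval_mul, eval_pow, eval_neg, eval_X, eval_C, eval_one, hLe]
    have h1 := hS.1
    rw [equation_iff] at h1
    linear_combination h1
  have hpq : inH H p q := by
    have := hmem p hp
    rwa [hLe, sub_self, mul_zero, zero_add] at this
  refine ⟨hpq, ?_⟩
  obtain ⟨M1, rfl⟩ := Multiset.exists_cons_of_mem hp
  have hdeg : (Nm (iP (-L) + iP 1 * yR : W.CoordinateRing)).degree =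
      max (2 • (-L).degree) (2 • (1 : k[X]).degree + 3) := Nm_deg _ _
  have hM1 : M1 ≠ 0 := by
    rintro rfl
    rw [hN, Multiset.map_cons, Multiset.prod_cons, Multiset.map_zero, Multiset.prod_zero, mul_one,
      degree_mul, degree_C hc, degree_X_sub_C, zero_add, degree_one] at hdeg
    have h3 : (3 : WithBot ℕ) ≤ 1 := by
      rw [hdeg]
      refine le_trans ?_ (le_max_right _ _)
      simp
    exact absurd h3 (by decide)
  obtain ⟨a, ha⟩ := Multiset.exists_mem_of_ne_zero hM1
  obtain ⟨M2, rfl⟩ := Multiset.exists_cons_of_mem ha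
  have haM : a ∈ p ::ₘ a ::ₘ M2 := Multiset.mem_cons_of_mem (Multiset.mem_cons_self _ _)
  refine ⟨a, L.eval a, hmem a haM, ?_⟩
  by_cases hap : p = a
  · subst hap
    have hLp : L.eval p = q := by rw [hLe]; ring
    rw [hLp]
    have hd := congrArg (fun g => (derivative g).eval p) hN'
    simp only [Multiset.map_cons, Multiset.prod_cons, derivative_mul, derivative_sub,
      derivative_add, derivative_neg, derivative_C, derivative_X, derivative_one,
      derivative_pow, eval_sub, eval_add, eval_mul, eval_pow, eval_neg, eval_X, eval_C,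
      eval_one, hLp] at hd
    have hL' : (derivative L).eval p = s := by rw [hL]; simp
    rw [hL'] at hd
    have hd' : s * (2 * q + W.a₁ * p + W.a₃) = 3 * p ^ 2 + 2 * W.a₂ * p + W.a₄ - W.a₁ * q := by
      norm_num at hd
      linear_combination hd
    have hne : q ≠ W.negY p q := by
      intro h1
      have h2 : 2 * q + W.a₁ * p + W.a₃ = 0 := by
        unfold WeierstrassCurve.Affine.negY at h1
        linear_combination h1
      rw [h2, mul_zero] at hd'
      have h3 := (W.nonsingular_iff p q).mp hS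
      rcases h3.2 with h4 | h4
      · apply h4; linear_combination hd'
      · apply h4; linear_combination h2
    refine ⟨fun h1 => hne h1.2, ?_⟩
    rw [slope_of_Y_ne rfl hne, div_eq_iff (sub_ne_zero.mpr hne)]
    unfold WeierstrassCurve.Affine.negY
    linear_combination -hd'
  · refine ⟨fun h1 => hap h1.1, ?_⟩
    rw [slope_of_X_ne hap, div_eq_iff (sub_ne_zero.mpr hap), hLe]
    ring

end Pool.Agent.FK4
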